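import Pool.Agent.H81.LE.Stm

/-!
# Project LE, PICKS: random matchings of size `k`
-/

namespace Pool.Agent.H49.LE

open Finset
open Pool.Agent.H81.LE

/-- `a ^ j + j a ^ (j - 1) b ≤ (a + b) ^ j` -/
theorem bern {a b : ℝ} (ha : 0 ≤ a) (hb : 0 ≤ b) (j : ℕ) : a ^ j + j * a ^ (j - 1) * b ≤ (a + b) ^ j := by
  induction j with
  | zero => simp
  | succ j ih =>
    have h1 := mul_le_mul_of_nonneg_left ih (add_nonneg ha hb)
    rw [Nat.add_sub_cancel, pow_succ (a + b), mul_comm ((a + b) ^ j)]
    refine le_trans ?_ h1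
    have h2 : (j : ℝ) * a ^ (j - 1) * a = j * a ^ j := by
      rcases Nat.eq_zero_or_pos j with h | h
      · subst h; simp
      · obtain ⟨m, rfl⟩ : ∃ m, j = m + 1 := ⟨j - 1, by omega⟩
        rw [Nat.add_sub_cancel, pow_succ]
        ring
    have h3 : 0 ≤ (j : ℝ) * a ^ (j - 1) * b * b := by positivity
    push_cast
    have e : (a + b) * (a ^ j + (j : ℝ) * a ^ (j - 1) * b) =
        a ^ j * a + (j : ℝ) * a ^ (j - 1) * a * b + a ^ j * b + (j : ℝ) * a ^ (j - 1) * b * b := by ring
    rw [e, h2, pow_succ]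
    linarith

/-- the matchings with `i` edges in `H` -/
def PP {V : Type} (H : Finset (V × ℕ)) (i : ℕ) (M : Finset (V × ℕ)) : Prop :=
  M ⊆ H ∧ M.card = i ∧ (∀ x ∈ M, ∀ y ∈ M, x.1 = y.1 → x = y) ∧ (∀ x ∈ M, ∀ y ∈ M, x.2 = y.2 → x = y)

/-- the available pairs -/
def Av {V : Type} [DecidableEq V] (H M : Finset (V × ℕ)) : Finset (V × ℕ) :=
  H.filter (fun x => x.1 ∉ M.image Prod.fst ∧ x.2 ∉ M.image Prod.snd)

theorem Av_card {V : Type} [DecidableEq V] {H : Finset (V × ℕ)} {k r c N i : ℕ} (hik : i ≤ k)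
    (hH : k * (r + c + N) ≤ H.card) (hr : ∀ v, (H.filter (fun x => x.1 = v)).card ≤ r)
    (hc : ∀ y, (H.filter (fun x => x.2 = y)).card ≤ c) {M : Finset (V × ℕ)} (hM : PP H i M) :
    k * N ≤ (Av H M).card := by
  have h1 : H ⊆ Av H M ∪ ((M.biUnion fun z => H.filter (fun x => x.1 = z.1)) ∪
      (M.biUnion fun z => H.filter (fun x => x.2 = z.2))) := by
    intro x hx
    by_cases h : x ∈ Av H M
    · exact mem_union_left _ h
    · refine mem_union_right _ ?_
      unfold Av at h
      rw [mem_filter, not_and, not_and_or, not_not, not_not] at h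
      rcases h hx with h | h
      · obtain ⟨z, hz, hzx⟩ := mem_image.1 h
        exact mem_union_left _ (mem_biUnion.2 ⟨z, hz, mem_filter.2 ⟨hx, hzx.symm⟩⟩)
      · obtain ⟨z, hz, hzx⟩ := mem_image.1 h
        exact mem_union_right _ (mem_biUnion.2 ⟨z, hz, mem_filter.2 ⟨hx, hzx.symm⟩⟩)
  have h2 := (card_le_card h1).trans (card_union_le _ _)
  have h3 := card_union_le (M.biUnion fun z => H.filter (fun x => x.1 = z.1))
    (M.biUnion fun z => H.filter (fun x => x.2 = z.2))
  have h4 : (M.biUnion fun z => H.filter (fun x => x.1 = z.1)).card ≤ i * r := by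
    rw [← hM.2.1]
    exact card_biUnion_le_card_mul _ _ _ fun z _ => hr z.1
  have h5 : (M.biUnion fun z => H.filter (fun x => x.2 = z.2)).card ≤ i * c := by
    rw [← hM.2.1]
    exact card_biUnion_le_card_mul _ _ _ fun z _ => hc z.2
  have h6 : i * r ≤ k * r := Nat.mul_le_mul_right _ hik
  have h7 : i * c ≤ k * c := Nat.mul_le_mul_right _ hik
  have h8 : k * (r + c + N) = k * r + k * c + k * N := by ring
  omega

theorem PP_insert {V : Type} [DecidableEq V] {H M : Finset (V × ℕ)} {i : ℕ} (hM : PP H i M) {x : V × ℕ}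
    (hx : x ∈ Av H M) : PP H (i + 1) (insert x M) := by
  unfold Av at hx
  rw [mem_filter] at hx
  obtain ⟨hxH, hx1, hx2⟩ := hx
  have hxM : x ∉ M := fun h => hx1 (mem_image_of_mem _ h)
  refine ⟨insert_subset hxH hM.1, by rw [card_insert_of_notMem hxM, hM.2.1], ?_, ?_⟩
  · intro y hy z hz hyz
    rcases mem_insert.1 hy with h1 | h1 <;> rcases mem_insert.1 hz with h2 | h2
    · rw [h1, h2]
    · rw [h1] at hyz
      exact absurd (hyz ▸ mem_image_of_mem Prod.fst h2) hx1
    · rw [h2] at hyz
      exact absurd (hyz ▸ mem_image_of_mem Prod.fst h1) hx1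
    · exact hM.2.2.1 y h1 z h2 hyz
  · intro y hy z hz hyz
    rcases mem_insert.1 hy with h1 | h1 <;> rcases mem_insert.1 hz with h2 | h2
    · rw [h1, h2]
    · rw [h1] at hyz
      exact absurd (hyz ▸ mem_image_of_mem Prod.snd h2) hx2
    · rw [h2] at hyz
      exact absurd (hyz ▸ mem_image_of_mem Prod.snd h1) hx2
    · exact hM.2.2.2 y h1 z h2 hyz

theorem step {V : Type} [DecidableEq V] {H : Finset (V × ℕ)} {k r c N i : ℕ} (hN : 0 < N) (hik : i < k)
    (hH : k * (r + c + N) ≤ H.card) (hr : ∀ v, (H.filter (fun x => x.1 = v)).card ≤ r)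
    (hc : ∀ y, (H.filter (fun x => x.2 = y)).card ≤ c)
    (ih : Spread ((i : ℝ) * (1 / ((k : ℝ) * N))) (PP H i)) :
    Spread (((i + 1 : ℕ) : ℝ) * (1 / ((k : ℝ) * N))) (PP H (i + 1)) := by
  obtain ⟨s, μ, hs, h1, hsp⟩ := ih
  have hk : 0 < k := by omega
  have hkr : (0 : ℝ) < k := by exact_mod_cast hk
  have hNr : (0 : ℝ) < N := by exact_mod_cast hN
  set q : ℝ := 1 / ((k : ℝ) * N) with hq
  have hq0 : 0 < q := by positivity
  have hav : ∀ M ∈ s, (1 : ℝ) / (Av H M).card ≤ q ∧ (0 : ℝ) < (Av H M).card := by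
    intro M hM
    have h2 : k * N ≤ (Av H M).card := Av_card hik.le hH hr hc (hs M hM).1
    have h3 : (k : ℝ) * N ≤ (Av H M).card := by exact_mod_cast h2
    have h4 : 0 < (k : ℝ) * N := by positivity
    exact ⟨one_div_le_one_div_of_le h4 h3, by linarith⟩
  set pr : Finset (Finset (V × ℕ) × (V × ℕ)) := (s ×ˢ H).filter (fun p => p.2 ∈ Av H p.1) with hpr
  set w : Finset (V × ℕ) × (V × ℕ) → ℝ := fun p => μ p.1 / (Av H p.1).card with hw
  have hmem : ∀ p ∈ pr, p.1 ∈ s ∧ p.2 ∈ Av H p.1 := by
    intro p hp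
    rw [hpr, mem_filter, mem_product] at hp
    exact ⟨hp.1.1, hp.2⟩
  have hw0 : ∀ p ∈ pr, 0 ≤ w p := fun p hp =>
    div_nonneg (hs _ (hmem p hp).1).2 (Nat.cast_nonneg _)
  have hsum : ∀ g : Finset (V × ℕ) → (V × ℕ) → ℝ, ∑ p ∈ pr, g p.1 p.2 = ∑ M ∈ s, ∑ x ∈ Av H M, g M x := by
    intro g
    rw [hpr, sum_filter, sum_product]
    refine sum_congr rfl fun M _ => ?_
    rw [← sum_filter]
    refine sum_congr ?_ fun _ _ => rfl
    ext x
    rw [mem_filter]
    constructor
    · exact fun h => h.2
    · intro h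
      refine ⟨?_, h⟩
      unfold Av at h
      exact (mem_filter.1 h).1
  refine ⟨pr.image (fun p => insert p.2 p.1), fun K => ∑ p ∈ pr.filter (fun p => insert p.2 p.1 = K), w p, ?_, ?_, ?_⟩
  · intro K hK
    obtain ⟨p, hp, rfl⟩ := mem_image.1 hK
    refine ⟨PP_insert (hs _ (hmem p hp).1).1 (hmem p hp).2, sum_nonneg fun z hz => hw0 z (mem_filter.1 hz).1⟩
  · rw [sum_fiberwise_of_maps_to (fun p hp => mem_image_of_mem _ hp)]
    rw [hsum (fun M _ => μ M / (Av H M).card), ← h1]
    refine sum_congr rfl fun M hM => ?_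
    rw [sum_const, nsmul_eq_mul]
    have := (hav M hM).2
    field_simp
  · intro J
    have e1 : ∑ K ∈ (pr.image (fun p => insert p.2 p.1)).filter (fun K => J ⊆ K),
        ∑ p ∈ pr.filter (fun p => insert p.2 p.1 = K), w p =
        ∑ p ∈ pr, if J ⊆ insert p.2 p.1 then w p else 0 := by
      rw [← sum_fiberwise_of_maps_to (s := pr) (t := pr.image (fun p => insert p.2 p.1))
        (g := fun p => insert p.2 p.1) (fun p hp => mem_image_of_mem _ hp), sum_filter]
      refine sum_congr rfl fun K _ => ?_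
      split_ifs with hJ
      · refine sum_congr rfl fun p hp => ?_
        rw [if_pos]
        rw [(mem_filter.1 hp).2]
        exact hJ
      · symm
        refine sum_eq_zero fun p hp => ?_
        rw [if_neg]
        rw [(mem_filter.1 hp).2]
        exact hJ
    rw [e1, hsum (fun M x => if J ⊆ insert x M then μ M / (Av H M).card else 0)]
    have e2 : ∀ M ∈ s, ∑ x ∈ Av H M, (if J ⊆ insert x M then μ M / (Av H M).card else 0) ≤
        (if J ⊆ M then μ M else 0) + q * ∑ x ∈ J, if J.erase x ⊆ M then μ M else 0 := by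
      intro M hM
      have hμ := (hs M hM).2
      obtain ⟨a1, a2⟩ := hav M hM
      have hnn : 0 ≤ q * ∑ x ∈ J, (if J.erase x ⊆ M then μ M else 0) :=
        mul_nonneg hq0.le (sum_nonneg fun x _ => by split_ifs <;> simp [hμ])
      by_cases hJ : J ⊆ M
      · rw [if_pos hJ]
        have : ∑ x ∈ Av H M, (if J ⊆ insert x M then μ M / (Av H M).card else 0) ≤ μ M := by
          calc _ ≤ ∑ x ∈ Av H M, μ M / (Av H M).card := by
                refine sum_le_sum fun x _ => ?_
                split_ifs
                · exact le_rfl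
                · exact div_nonneg hμ a2.le
            _ = μ M := by
                rw [sum_const, nsmul_eq_mul]
                field_simp
        linarith
      · rw [if_neg hJ, zero_add]
        have hsub : (Av H M).filter (fun x => J ⊆ insert x M) ⊆ J.filter (fun x => J.erase x ⊆ M) := by
          intro x hx
          rw [mem_filter] at hx
          have hxJ : x ∈ J := by
            by_contra hxJ
            refine hJ fun y hy => ?_
            rcases mem_insert.1 (hx.2 hy) with h | h
            · exact absurd (h ▸ hy) hxJ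
            · exact h
          refine mem_filter.2 ⟨hxJ, fun y hy => ?_⟩
          rw [mem_erase] at hy
          rcases mem_insert.1 (hx.2 hy.2) with h | h
          · exact absurd h hy.1
          · exact h
        rw [← sum_filter, ← sum_filter, sum_const, sum_const, nsmul_eq_mul, nsmul_eq_mul]
        have h5 : (((Av H M).filter (fun x => J ⊆ insert x M)).card : ℝ) ≤ ((J.filter (fun x => J.erase x ⊆ M)).card : ℝ) := by
          exact_mod_cast card_le_card hsub
        have h6 : μ M / (Av H M).card ≤ q * μ M := by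
          rw [div_eq_mul_one_div, mul_comm]
          exact mul_le_mul_of_nonneg_right a1 hμ
        calc _ ≤ ((J.filter (fun x => J.erase x ⊆ M)).card : ℝ) * (q * μ M) :=
              mul_le_mul h5 h6 (div_nonneg hμ a2.le) (Nat.cast_nonneg _)
          _ = _ := by ring
    refine (sum_le_sum e2).trans ?_
    rw [sum_add_distrib, ← mul_sum, sum_comm, ← sum_filter]
    have e3 : ∑ x ∈ J, ∑ M ∈ s, (if J.erase x ⊆ M then μ M else 0) ≤ ∑ x ∈ J, ((i : ℝ) * q) ^ (J.card - 1) := by
      refine sum_le_sum fun x hx => ?_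
      rw [← sum_filter]
      refine (hsp (J.erase x)).trans (le_of_eq ?_)
      rw [card_erase_of_mem hx]
    rw [sum_const, nsmul_eq_mul] at e3
    have e4 := hsp J
    have e5 := bern (a := (i : ℝ) * q) (b := q) (by positivity) hq0.le J.card
    have e6 : (i : ℝ) * q + q = ((i + 1 : ℕ) : ℝ) * q := by
      push_cast
      ring
    rw [e6] at e5
    have e7 := mul_le_mul_of_nonneg_left e3 hq0.le
    refine le_trans ?_ e5
    have e8 : q * ((J.card : ℝ) * ((i : ℝ) * q) ^ (J.card - 1)) = (J.card : ℝ) * ((i : ℝ) * q) ^ (J.card - 1) * q := by ring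
    linarith

theorem t_picks : S_picks := by
  intro V _ H k r c N hN hH hr hc
  have key : ∀ i : ℕ, i ≤ k → Spread ((i : ℝ) * (1 / ((k : ℝ) * N))) (PP H i) := by
    intro i
    induction i with
    | zero =>
      intro _
      refine ⟨{∅}, fun _ => 1, ?_, by simp, ?_⟩
      · intro M hM
        rw [mem_singleton] at hM
        subst hM
        exact ⟨⟨empty_subset _, card_empty, by simp, by simp⟩, zero_le_one⟩
      · intro J
        rcases J.eq_empty_or_nonempty with h | h
        · subst h
          simp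
        · have : ({∅} : Finset (Finset (V × ℕ))).filter (fun M => J ⊆ M) = ∅ := by
            rw [filter_singleton, if_neg]
            rw [subset_empty]
            exact h.ne_empty
          rw [this, sum_empty]
          positivity
    | succ i ih =>
      intro hi
      exact step hN (by omega) hH hr hc (ih (by omega))
  have h := key k le_rfl
  have hNr : (0 : ℝ) < N := by exact_mod_cast hN
  refine h.mono (by positivity) ?_ fun M hM => hM
  rcases Nat.eq_zero_or_pos k with h0 | h0
  · subst h0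
    simp
  · have : (0 : ℝ) < k := by exact_mod_cast h0
    refine le_of_eq ?_
    field_simp

end Pool.Agent.H49.LE
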