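import Pool.Agent.H81.LE.Stm

/-!
# Project LE, ROWS: composition of spread measures with disjoint rows
-/

namespace Pool.Agent.H49.LE

open Finset
open Pool.Agent.H81.LE

theorem t_rows : S_rows := by
  classical
  intro E _ θ R P Q hθ hR hR' hP hQ
  obtain ⟨s, μ, hs, h1, hsp⟩ := hP
  unfold Spread at hQ
  choose! t ν ht using hQ
  set pr : Finset (Σ _ : Finset E, Finset E) := s.sigma fun M => t M with hpr
  set w : (Σ _ : Finset E, Finset E) → ℝ := fun p => μ p.1 * ν p.1 p.2 with hw
  have hmem : ∀ p ∈ pr, p.1 ∈ s ∧ p.2 ∈ t p.1 := fun p hp => mem_sigma.1 hp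
  have hw0 : ∀ p ∈ pr, 0 ≤ w p := fun p hp =>
    mul_nonneg (hs _ (hmem p hp).1).2 ((ht _ (hs _ (hmem p hp).1).1).1 _ (hmem p hp).2).2
  refine ⟨pr.image (fun p => p.1 ∪ p.2), fun K => ∑ p ∈ pr.filter (fun p => p.1 ∪ p.2 = K), w p, ?_, ?_, ?_⟩
  · intro K hK
    obtain ⟨p, hp, rfl⟩ := mem_image.1 hK
    obtain ⟨m1, m2⟩ := hmem p hp
    have hPp := (hs _ m1).1
    exact ⟨⟨p.1, p.2, hPp, ((ht _ hPp).1 _ m2).1, rfl⟩, sum_nonneg fun z hz => hw0 z (mem_filter.1 hz).1⟩
  · rw [sum_fiberwise_of_maps_to (fun p hp => mem_image_of_mem _ hp), hpr, sum_sigma, ← h1]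
    refine sum_congr rfl fun M hM => ?_
    simp only [hw]
    rw [← mul_sum, (ht M (hs M hM).1).2.1, mul_one]
  · intro J
    have e1 : ∑ K ∈ (pr.image (fun p => p.1 ∪ p.2)).filter (fun K => J ⊆ K),
        ∑ p ∈ pr.filter (fun p => p.1 ∪ p.2 = K), w p = ∑ p ∈ pr, if J ⊆ p.1 ∪ p.2 then w p else 0 := by
      rw [← sum_fiberwise_of_maps_to (s := pr) (t := pr.image (fun p => p.1 ∪ p.2))
        (g := fun p => p.1 ∪ p.2) (fun p hp => mem_image_of_mem _ hp), sum_filter]
      refine sum_congr rfl fun K _ => ?_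
      split_ifs with hJ
      · refine sum_congr rfl fun p hp => ?_
        rw [if_pos]
        rw [(mem_filter.1 hp).2]
        exact hJ
      · symm
        refine sum_eq_zero fun p hp => ?_
        rw [if_neg]
        rw [(mem_filter.1 hp).2]
        exact hJ
    rw [e1, hpr, sum_sigma]
    set J1 := J.filter R with hJ1
    set J2 := J.filter (fun x => ¬ R x) with hJ2
    have e2 : ∀ M ∈ s, ∑ M' ∈ t M, (if J ⊆ (⟨M, M'⟩ : Σ _ : Finset E, Finset E).1 ∪ (⟨M, M'⟩ : Σ _ : Finset E, Finset E).2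
        then w ⟨M, M'⟩ else 0) ≤ if J1 ⊆ M then μ M * θ ^ J2.card else 0 := by
      intro M hM
      obtain ⟨hPM, hμ⟩ := hs M hM
      obtain ⟨t1, t2, t3⟩ := ht M hPM
      by_cases hJM : J1 ⊆ M
      · rw [if_pos hJM]
        refine le_trans ?_ (mul_le_mul_of_nonneg_left (t3 J2) hμ)
        rw [mul_sum, sum_filter]
        refine sum_le_sum fun M' hM' => ?_
        by_cases hJ : J ⊆ M ∪ M'
        · have hJM' : J2 ⊆ M' := by
            intro x hx
            obtain ⟨hxJ, hxR⟩ := mem_filter.1 hx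
            rcases mem_union.1 (hJ hxJ) with h | h
            · exact absurd (hR M hPM x h) hxR
            · exact h
          rw [if_pos hJ, if_pos hJM']
        · rw [if_neg hJ]
          split_ifs
          · exact mul_nonneg hμ (t1 M' hM').2
          · exact le_rfl
      · rw [if_neg hJM]
        refine le_of_eq (sum_eq_zero fun M' hM' => ?_)
        rw [if_neg]
        intro hJ
        refine hJM fun x hx => ?_
        obtain ⟨hxJ, hxR⟩ := mem_filter.1 hx
        rcases mem_union.1 (hJ hxJ) with h | h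
        · exact h
        · exact absurd hxR (hR' M M' hPM (t1 M' hM').1 x h)
    refine (sum_le_sum e2).trans ?_
    rw [← sum_filter, ← sum_mul]
    have hc : J.card = J1.card + J2.card := by
      rw [hJ1, hJ2]
      exact (card_filter_add_card_filter_not R).symm
    rw [hc, pow_add]
    exact mul_le_mul_of_nonneg_right (hsp J1) (pow_nonneg hθ _)

end Pool.Agent.H49.LE
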